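import Pool.Agent.Helper96_PP.StmtsA
import Pool.Agent.Helper94_PP.Bridge
import Pool.Agent.Helper74_PP.Orbit

/-!
# Squad PP: positivity passes to the local subgroups (POS1)
-/

open scoped BigOperators

noncomputable section

namespace Pool.Agent.PP.H66

open Pool.Agent.PP Pool.Agent.Helper51_AWC Pool.Agent.Helper79_WRA

section orb

variable {ℓ : ℕ} {F G : Type} [Field F] [Group G] [Finite G]

/-- Orbit lemma for the conjugation by an `ℓ`-subgroup. -/
theorem orb_conj (hF : GoodF ℓ F) {P : Subgroup G} (hP : IsPGroup ℓ P) (h : G → F)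
    (hinv : ∀ p ∈ P, ∀ t, h (p * t * p⁻¹) = h t) :
    ∑ᶠ t, h t = ∑ᶠ t, br P h t := by
  classical
  have := Fintype.ofFinite G
  have : Fact ℓ.Prime := ⟨hF.prime⟩
  have := hF.char
  let _ : MulAction P G := MulAction.compHom G ((MulAut.conj (G := G)).comp P.subtype)
  have hsm : ∀ (p : P) (t : G), p • t = (p : G) * t * (p : G)⁻¹ := fun p t => rfl
  have h1 := Pool.Agent.PP.H74.orbit_sum_ring (T := G) hP h (fun r t => by
    rw [hsm]; exact hinv _ r.2 t)
  rw [finsum_eq_sum_of_fintype, finsum_eq_sum_of_fintype, h1, Finset.sum_filter]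
  refine Finset.sum_congr rfl fun t _ => ?_
  unfold br
  have hiff : (∀ r : P, r • t = t) ↔ t ∈ Subgroup.centralizer (P : Set G) := by
    rw [Subgroup.mem_centralizer_iff]
    constructor
    · intro h p hp
      have := h ⟨p, hp⟩
      rw [hsm] at this
      exact mul_inv_eq_iff_eq_mul.1 this
    · intro h r
      rw [hsm]
      exact mul_inv_eq_iff_eq_mul.2 (h r r.2)
  by_cases hc : t ∈ Subgroup.centralizer (P : Set G)
  · rw [if_pos hc, if_pos (hiff.2 hc)]
  · rw [if_neg hc, if_neg (fun h => hc (hiff.1 h))]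

/-- invariance under conjugation by a subgroup -/
def Inv (P : Subgroup G) (a : G → F) : Prop := ∀ p ∈ P, ∀ t, a (p * t * p⁻¹) = a t

omit [Field F] [Finite G] in
theorem IsCl.inv {a : G → F} (h : IsCl a) (P : Subgroup G) : Inv P a := fun p _ t => h t p

omit [Finite G] in
theorem br_of_mem {P : Subgroup G} {a : G → F} {t : G}
    (h : t ∈ Subgroup.centralizer (P : Set G)) : br P a t = a t := by
  classical
  unfold br
  rw [if_pos h]

omit [Finite G] in
theorem br_of_not_mem {P : Subgroup G} {a : G → F} {t : G}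
    (h : t ∉ Subgroup.centralizer (P : Set G)) : br P a t = 0 := by
  classical
  unfold br
  rw [if_neg h]

/-- The Brauer map is multiplicative on the invariant elements. -/
theorem br_mulF (hF : GoodF ℓ F) {P : Subgroup G} (hP : IsPGroup ℓ P) {a b : G → F}
    (ha : Inv P a) (hb : Inv P b) : br P (mulF a b) = mulF (br P a) (br P b) := by
  classical
  funext t
  by_cases ht : t ∈ Subgroup.centralizer (P : Set G)
  · rw [br_of_mem ht]
    have ht' := Subgroup.mem_centralizer_iff.1 ht
    unfold mulF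
    rw [orb_conj hF hP (fun s => a s * b (s⁻¹ * t))]
    · apply finsum_congr
      intro s
      by_cases hs : s ∈ Subgroup.centralizer (P : Set G)
      · rw [br_of_mem hs, br_of_mem hs, br_of_mem (mul_mem (inv_mem hs) ht)]
      · rw [br_of_not_mem hs, br_of_not_mem hs, zero_mul]
    · intro p hp s
      have e : (p * s * p⁻¹)⁻¹ * t = p * (s⁻¹ * t) * p⁻¹ := by
        have := ht' p hp
        have h2 : p⁻¹ * t = t * p⁻¹ := by
          rw [inv_mul_eq_iff_eq_mul, ← mul_assoc, this, mul_assoc, mul_inv_cancel, mul_one]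
        calc (p * s * p⁻¹)⁻¹ * t = p * s⁻¹ * (p⁻¹ * t) := by group
          _ = p * (s⁻¹ * t) * p⁻¹ := by rw [h2]; group
      change a (p * s * p⁻¹) * b ((p * s * p⁻¹)⁻¹ * t) = _
      rw [e, ha p hp, hb p hp]
  · rw [br_of_not_mem ht]
    unfold mulF
    symm
    rw [← finsum_zero (α := G)]
    apply finsum_congr
    intro s
    by_cases hs : s ∈ Subgroup.centralizer (P : Set G)
    · rw [br_of_not_mem (t := s⁻¹ * t), mul_zero]
      intro h
      apply ht
      have := mul_mem hs h
      rwa [mul_inv_cancel_left] at this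
    · rw [br_of_not_mem hs, zero_mul]

/-- products of invariant elements are invariant -/
theorem Inv.mulF {P : Subgroup G} {a b : G → F} (ha : Inv P a) (hb : Inv P b) :
    Inv P (mulF a b) := by
  intro p hp t
  have := Fintype.ofFinite G
  unfold Pool.Agent.PP.mulF
  rw [finsum_eq_sum_of_fintype, finsum_eq_sum_of_fintype]
  rw [← Equiv.sum_comp (MulAut.conj p).toEquiv]
  refine Finset.sum_congr rfl fun s _ => ?_
  change a (p * s * p⁻¹) * b ((p * s * p⁻¹)⁻¹ * (p * t * p⁻¹)) = _
  have e : (p * s * p⁻¹)⁻¹ * (p * t * p⁻¹) = p * (s⁻¹ * t) * p⁻¹ := by group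
  rw [e, ha p hp, hb p hp]

theorem Inv.iter {P : Subgroup G} {a b : G → F} (ha : Inv P a) (hb : Inv P b) (n : ℕ) :
    Inv P ((Pool.Agent.PP.mulF a)^[n] b) := by
  induction n with
  | zero => exact hb
  | succ n ih =>
    rw [Function.iterate_succ_apply']
    exact ha.mulF ih

theorem br_iter (hF : GoodF ℓ F) {P : Subgroup G} (hP : IsPGroup ℓ P) {a b : G → F}
    (ha : Inv P a) (hb : Inv P b) (n : ℕ) :
    br P ((mulF a)^[n] b) = (mulF (br P a))^[n] (br P b) := by
  induction n with
  | zero => rfl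
  | succ n ih =>
    rw [Function.iterate_succ_apply', Function.iterate_succ_apply', ← ih,
      br_mulF hF hP ha (Inv.iter ha hb n)]

omit [Finite G] in
theorem br_zero (P : Subgroup G) : br P (0 : G → F) = 0 := by
  classical
  funext t
  unfold br
  split_ifs <;> rfl

end orb

section cnt

variable {F G : Type} [Field F] [Group G] [Finite G]

/-- the number of `q` in `Q` with `q x q⁻¹ = y` -/
def tq (F : Type) [Field F] {G : Type} [Group G] (Q : Subgroup G) (x : G) : G → F :=
  open Classical in fun y => ∑ᶠ q : G, if q ∈ Q ∧ q * x * q⁻¹ = y then (1 : F) else 0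

theorem tq_eq (Q : Subgroup G) (x : G) :
    tq F Q x = (Nat.card (Subgroup.centralizer ({x} : Set G) ⊓ Q : Subgroup G) : F) •
      clsum F Q x := by
  classical
  have := Fintype.ofFinite G
  funext y
  rw [Pi.smul_apply, tq, clsum, finsum_eq_sum_of_fintype]
  by_cases h : ∃ q ∈ Q, y = q * x * q⁻¹
  · obtain ⟨q, hq, rfl⟩ := h
    rw [if_pos ⟨q, hq, rfl⟩, smul_eq_mul, mul_one, Finset.sum_boole, Nat.card_eq_fintype_card,
      ← Fintype.card_coe]
    congr 1
    apply Fintype.card_congr
    refine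
      { toFun := fun r => ⟨q⁻¹ * r.1, ?_⟩
        invFun := fun c => ⟨q * c.1, ?_⟩
        left_inv := fun r => Subtype.ext (mul_inv_cancel_left q r.1)
        right_inv := fun c => Subtype.ext (inv_mul_cancel_left q c.1) }
    · have hr := (Finset.mem_filter.1 r.2).2
      rw [Subgroup.mem_inf, Subgroup.mem_centralizer_singleton_iff]
      refine ⟨?_, mul_mem (inv_mem hq) hr.1⟩
      have h2 : r.1 * x * r.1⁻¹ = q * x * q⁻¹ := hr.2
      have h3 : r.1 * x = q * x * q⁻¹ * r.1 := mul_inv_eq_iff_eq_mul.1 h2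
      calc q⁻¹ * r.1 * x = q⁻¹ * (r.1 * x) := by group
        _ = x * (q⁻¹ * r.1) := by rw [h3]; group
    · have hc := Subgroup.mem_inf.1 c.2
      rw [Subgroup.mem_centralizer_singleton_iff] at hc
      rw [Finset.mem_filter]
      refine ⟨Finset.mem_univ _, mul_mem hq hc.2, ?_⟩
      calc q * c.1 * x * (q * c.1)⁻¹ = q * (c.1 * x) * c.1⁻¹ * q⁻¹ := by group
        _ = q * x * q⁻¹ := by rw [hc.1]; group
  · rw [if_neg h, smul_zero]
    apply Finset.sum_eq_zero
    intro q _
    rw [if_neg]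
    rintro ⟨hq, hy⟩
    exact h ⟨q, hq, hy.symm⟩

theorem tq_inv {P Q : Subgroup G} (hQ : Q.Normal) {x : G}
    (hx : x ∈ Subgroup.centralizer (P : Set G)) : Inv P (tq F Q x) := by
  classical
  have := Fintype.ofFinite G
  intro p hp y
  rw [tq, tq, finsum_eq_sum_of_fintype, finsum_eq_sum_of_fintype]
  rw [← Equiv.sum_comp (MulAut.conj p).toEquiv]
  refine Finset.sum_congr rfl fun q _ => ?_
  change (if p * q * p⁻¹ ∈ Q ∧ p * q * p⁻¹ * x * (p * q * p⁻¹)⁻¹ = p * y * p⁻¹ then (1 : F) else 0)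
    = _
  have hpx := Subgroup.mem_centralizer_iff.1 hx p hp
  have h1 : p * q * p⁻¹ ∈ Q ↔ q ∈ Q := by
    constructor
    · intro h
      have := hQ.conj_mem _ h p⁻¹
      have e : p⁻¹ * (p * q * p⁻¹) * p⁻¹⁻¹ = q := by group
      rwa [e] at this
    · intro h
      exact hQ.conj_mem _ h p
  have h2 : p * q * p⁻¹ * x * (p * q * p⁻¹)⁻¹ = p * (q * x * q⁻¹) * p⁻¹ := by
    have h3 : p⁻¹ * x * p = x := by
      rw [mul_assoc, ← hpx, inv_mul_cancel_left]
    calc p * q * p⁻¹ * x * (p * q * p⁻¹)⁻¹ = p * q * (p⁻¹ * x * p) * q⁻¹ * p⁻¹ := by group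
      _ = p * (q * x * q⁻¹) * p⁻¹ := by rw [h3]; group
  have h4 : (p * (q * x * q⁻¹) * p⁻¹ = p * y * p⁻¹) ↔ q * x * q⁻¹ = y := by
    rw [mul_left_inj, mul_right_inj]
  simp only [h1, h2, h4]

theorem br_tq {ℓ : ℕ} (hF : GoodF ℓ F) {P Q : Subgroup G} (hP : IsPGroup ℓ P) {x : G}
    (hQ : Q.Normal) (hx : x ∈ Subgroup.centralizer (P : Set G)) :
    br P (tq F Q x) = tq F (Subgroup.centralizer (P : Set G) ⊓ Q) x := by
  classical
  have hpx := Subgroup.mem_centralizer_iff.1 hx
  funext y
  by_cases hy : y ∈ Subgroup.centralizer (P : Set G)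
  · have hpy := Subgroup.mem_centralizer_iff.1 hy
    rw [br_of_mem hy, tq, tq, orb_conj hF hP]
    · apply finsum_congr
      intro q
      by_cases hq : q ∈ Subgroup.centralizer (P : Set G)
      · rw [br_of_mem hq]
        have : q ∈ Subgroup.centralizer (P : Set G) ⊓ Q ↔ q ∈ Q :=
          ⟨fun h => h.2, fun h => ⟨hq, h⟩⟩
        simp only [this]
      · rw [br_of_not_mem hq, if_neg]
        rintro ⟨h, -⟩
        exact hq h.1
    · intro p hp q
      have h1 : p * q * p⁻¹ ∈ Q ↔ q ∈ Q := by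
        constructor
        · intro h
          have := hQ.conj_mem _ h p⁻¹
          have e : p⁻¹ * (p * q * p⁻¹) * p⁻¹⁻¹ = q := by group
          rwa [e] at this
        · intro h
          exact hQ.conj_mem _ h p
      have h2 : p * q * p⁻¹ * x * (p * q * p⁻¹)⁻¹ = p * (q * x * q⁻¹) * p⁻¹ := by
        have h3 : p⁻¹ * x * p = x := by
          rw [mul_assoc, ← hpx p hp, inv_mul_cancel_left]
        calc p * q * p⁻¹ * x * (p * q * p⁻¹)⁻¹ = p * q * (p⁻¹ * x * p) * q⁻¹ * p⁻¹ := by group
          _ = p * (q * x * q⁻¹) * p⁻¹ := by rw [h3]; group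
      have h4 : (p * (q * x * q⁻¹) * p⁻¹ = y) ↔ q * x * q⁻¹ = y := by
        have h5 : y = p * y * p⁻¹ := by rw [hpy p hp, mul_inv_cancel_right]
        constructor
        · intro h
          rw [h5, mul_left_inj, mul_right_inj] at h
          exact h
        · intro h
          rw [h]
          exact h5.symm
      simp only [h1, h2, h4]
  · rw [br_of_not_mem hy, tq]
    have h0 : ∀ q : G, (if q ∈ Subgroup.centralizer (P : Set G) ⊓ Q ∧ q * x * q⁻¹ = y then (1 : F)
        else 0) = 0 := by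
      intro q
      rw [if_neg]
      rintro ⟨hq, rfl⟩
      exact hy (mul_mem (mul_mem hq.1 hx) (inv_mem hq.1))
    rw [finsum_congr h0, finsum_zero]

end cnt

section tr

variable {F G : Type} [Field F] [Group G] [Finite G]

/-- the product of functions supported on a subgroup -/
theorem mulF_sub {X : Subgroup G} {a b : G → F} (ha : ∀ t, t ∉ X → a t = 0) :
    (fun t : X => mulF a b t) = mulF (fun t : X => a t) (fun t : X => b t) := by
  classical
  have := Fintype.ofFinite G
  funext t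
  unfold mulF
  rw [finsum_eq_sum_of_fintype, finsum_eq_sum_of_fintype]
  have h1 : ∑ s : G, a s * b (s⁻¹ * t) =
      ∑ s ∈ Finset.univ.filter (fun s : G => s ∈ X), a s * b (s⁻¹ * t) := by
    symm
    rw [Finset.sum_filter]
    refine Finset.sum_congr rfl fun s _ => ?_
    by_cases hs : s ∈ X
    · rw [if_pos hs]
    · rw [if_neg hs, ha s hs, zero_mul]
  rw [h1]
  rw [Finset.sum_subtype (p := fun s : G => s ∈ X) (Finset.univ.filter (fun s : G => s ∈ X))
    (fun s => by simp)]
  rfl

theorem iter_sub {X : Subgroup G} {a b : G → F} (ha : ∀ t, t ∉ X → a t = 0) (n : ℕ) :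
    (fun t : X => (mulF a)^[n] b t) =
      (mulF (fun t : X => a t))^[n] (fun t : X => b t) := by
  induction n with
  | zero => rfl
  | succ n ih =>
    rw [Function.iterate_succ_apply' (mulF (fun t : X => a t)), ← ih, ← mulF_sub ha]
    funext t
    rw [Function.iterate_succ_apply']

theorem iter_smul (c : F) (a b : G → F) (n : ℕ) :
    (mulF (c • a))^[n] b = c ^ n • (mulF a)^[n] b := by
  apply ma_injective
  rw [ma_iterate, ma_smul, ma_smul, ma_iterate, smul_pow, smul_mul_assoc]

end tr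

/-- POS1 -/
theorem ps1 : Ps1Stmt := by
  classical
  intro ℓ F _ hF G _ _ P Q hP hQ _ e he hpos X hCX _ x hx hd
  have hx' : (x : G) ∈ Subgroup.centralizer (P : Set G) ⊓ Q := hx
  set Q' : Subgroup G := Subgroup.centralizer (P : Set G) ⊓ Q with hQ'
  have hQX : Q' ≤ X := inf_le_left.trans hCX
  -- the numbers of elements of the centralisers
  have hcard : Nat.card (Subgroup.centralizer ({x} : Set X) ⊓ Q'.subgroupOf X : Subgroup X) =
      Nat.card (Subgroup.centralizer ({(x : G)} : Set G) ⊓ Q' : Subgroup G) := by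
    refine Nat.card_congr
      { toFun := fun y => ⟨y.1.1, ?_⟩
        invFun := fun y => ⟨⟨y.1, hQX y.2.2⟩, ?_⟩
        left_inv := fun y => rfl
        right_inv := fun y => rfl }
    · have h := Subgroup.mem_inf.1 y.2
      rw [Subgroup.mem_centralizer_singleton_iff] at h
      rw [Subgroup.mem_inf, Subgroup.mem_centralizer_singleton_iff]
      exact ⟨congrArg Subtype.val h.1, h.2⟩
    · have h := Subgroup.mem_inf.1 y.2
      rw [Subgroup.mem_centralizer_singleton_iff] at h
      rw [Subgroup.mem_inf, Subgroup.mem_centralizer_singleton_iff]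
      exact ⟨Subtype.ext h.1, h.2⟩
  have hcl : clsum F (Q'.subgroupOf X) x = fun t : X => clsum F Q' (x : G) t := by
    funext t
    unfold clsum
    have hiff : (∃ q ∈ Q'.subgroupOf X, t = q * x * q⁻¹) ↔
        ∃ q ∈ Q', (t : G) = q * x * q⁻¹ := by
      constructor
      · rintro ⟨q, hq, rfl⟩
        exact ⟨q, hq, rfl⟩
      · rintro ⟨q, hq, h⟩
        exact ⟨⟨q, hQX hq⟩, hq, Subtype.ext h⟩
    by_cases h : ∃ q ∈ Q', (t : G) = q * x * q⁻¹
    · rw [if_pos h, if_pos (hiff.2 h)]
    · rw [if_neg h, if_neg (fun h' => h (hiff.1 h'))]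
  have hsupp : ∀ t, t ∉ X → clsum F Q' (x : G) t = 0 := by
    intro t ht
    unfold clsum
    rw [if_neg]
    rintro ⟨q, hq, rfl⟩
    exact ht (mul_mem (mul_mem (hQX hq) x.2) (inv_mem (hQX hq)))
  rw [hcard] at hd
  -- the powers vanish in `G`
  have key : ∃ n : ℕ, (mulF (tq F Q (x : G)))^[n] e = 0 := by
    by_cases hl : ℓ ∣ Nat.card (Subgroup.centralizer ({(x : G)} : Set G) ⊓ Q : Subgroup G)
    · refine ⟨1, ?_⟩
      have := hF.char
      rw [tq_eq, (CharP.cast_eq_zero_iff F ℓ _).2 hl, iter_smul, pow_one, zero_smul]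
    · obtain ⟨n, hn⟩ := hpos (x : G) hx'.2 hl
      refine ⟨n, ?_⟩
      rw [tq_eq, iter_smul, hn, smul_zero]
  obtain ⟨n, hn⟩ := key
  refine ⟨n, ?_⟩
  have h1 := congrArg (br P) hn
  rw [br_zero, br_iter hF hP (tq_inv hQ hx'.1) (IsCl.inv he.1 P), br_tq hF hP hQ hx'.1, tq_eq,
    iter_smul] at h1
  have hc : ((Nat.card (Subgroup.centralizer ({(x : G)} : Set G) ⊓ Q' : Subgroup G) : ℕ) : F) ≠ 0 := by
    have := hF.char
    intro h
    exact hd ((CharP.cast_eq_zero_iff F ℓ _).1 h)
  have h2 := (smul_eq_zero.1 h1).resolve_left (pow_ne_zero n hc)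
  rw [hcl, ← iter_sub hsupp]
  funext t
  exact congrFun h2 (t : G)

end Pool.Agent.PP.H66
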