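import Pool.Agent.Helper46_PP.StmtsTop

/-!
# Squad PP, part LQ: removing the outer automorphisms of order divisible by `ℓ`

Text: `AWC_LQ.md`.
-/

open scoped BigOperators

noncomputable section

namespace Pool.Agent.PP

open Pool.Agent.Helper51_AWC Pool.Agent.Helper79_WRA

variable (F : Type) [Field F] {H : Type} [Group H]

/-- the class functions of `H` vanishing on `L` -/
def cfsO (L : Subgroup H) : Submodule F (H → F) where
  carrier := {f | IsCl f ∧ ∀ x ∈ L, f x = 0}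
  add_mem' := by
    rintro a b ⟨ha, ha'⟩ ⟨hb, hb'⟩
    refine ⟨(cfs F H).add_mem ha hb, fun x hx => ?_⟩
    change a x + b x = 0
    rw [ha' x hx, hb' x hx, add_zero]
  zero_mem' := ⟨fun _ _ => rfl, fun _ _ => rfl⟩
  smul_mem' := by
    rintro c a ⟨ha, ha'⟩
    refine ⟨(cfs F H).smul_mem c ha, fun x hx => ?_⟩
    change c * a x = 0
    rw [ha' x hx, mul_zero]

/-- OSI (Osima): central idempotents are supported on the `ℓ`-regular elements. -/
def OsiStmt : Prop := ∀ (ℓ : ℕ) (F : Type) [Field F], GoodF ℓ F → ∀ (H : Type) [Group H] [Finite H]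
  (e : H → F), IsIdem e → ∀ x, ¬ Reg ℓ x → e x = 0

open Classical in
/-- SMO: the second main theorem for the class functions vanishing on a normal subgroup `L` such
that `H / L` is an `ℓ`-group. -/
def SmoStmt : Prop := ∀ (ℓ : ℕ) (F : Type) [Field F], GoodF ℓ F → ∀ (H : Type) [Group H] [Fintype H]
  (L : Subgroup H), L.Normal → (∃ n : ℕ, L.index = ℓ ^ n) → ∀ e : H → F, IsIdem e →
  Nat.card H * rk e (cfsO F L) =
    ∑ u ∈ Finset.univ.filter (fun u : H => (∃ n : ℕ, u ^ ℓ ^ n = 1) ∧ u ∉ L),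
      Nat.card (Subgroup.centralizer ({u} : Set H)) * lnum (Subgroup.centralizer ({u} : Set H)) e

open Classical in
/-- CAN: the chains of `Y` normalised by an `ℓ`-element `u` with `⟨u⟩ ∩ Y ≠ 1` cancel. -/
def CanStmt : Prop := ∀ (ℓ : ℕ) [Fact ℓ.Prime] (X : Type) [Group X] [Finite X] (Y : Subgroup X),
  Y.Normal → ∀ u : X, (∃ n : ℕ, u ^ ℓ ^ n = 1) → Subgroup.zpowers u ⊓ Y ≠ ⊥ →
  ∀ W : Subgroup X → Subgroup X → ℤ,
  (∀ K R : Subgroup X, K ≤ Subgroup.centralizer ({u} : Set X) →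
    W K ((Subgroup.zpowers u ⊓ Y) ⊔ R) = W K R) →
  ∑ d ∈ (chainsOn (psubIn ℓ Y) ⊥).filter (fun d => u ∈ stab d),
    (-1) ^ (d.card + 1) * W (Subgroup.centralizer ({u} : Set X) ⊓ stab d) (top d) = 0

open Classical in
/-- FXU: the chains of `Y` normalised by an `ℓ`-element `u` can be replaced by the chains of
`C_Y(u)`, for weights depending on the stabiliser in `C(u)` and the top. -/
def FxuStmt : Prop := ∀ (ℓ : ℕ) [Fact ℓ.Prime] (X : Type) [Group X] [Finite X] (Y : Subgroup X),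
  Y.Normal → ∀ u : X, (∃ n : ℕ, u ^ ℓ ^ n = 1) → ∀ W : Subgroup X → Subgroup X → ℤ,
  ∑ d ∈ (chainsOn (psubIn ℓ Y) ⊥).filter (fun d => u ∈ stab d),
    (-1) ^ (d.card + 1) * W (Subgroup.centralizer ({u} : Set X) ⊓ stab d) (top d) =
    ∑ d ∈ chainsOn (psubIn ℓ (Subgroup.centralizer ({u} : Set X) ⊓ Y)) ⊥,
      (-1) ^ (d.card + 1) * W (Subgroup.centralizer ({u} : Set X) ⊓ stab d) (top d)

/-- CUX: passage to a subgroup `C` containing `Y'`: chains of `Y'` in `X` and in `C`. -/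
def CuxStmt : Prop := ∀ (ℓ : ℕ) (F : Type) [Field F] (X : Type) [Group X] [Finite X]
  (C Y' : Subgroup X), Y' ≤ C → ∀ e : X → F,
  ∑ d ∈ chainsOn (psubIn ℓ Y') ⊥, (-1) ^ (d.card + 1) *
      ((Nat.card ↥(C ⊓ stab d) : ℤ) * (lnum (C ⊓ stab d) (br (top d) e) : ℤ)) =
    ∑ d ∈ chainsOn (psubIn ℓ (Y'.subgroupOf C)) ⊥, (-1) ^ (d.card + 1) *
      ((Nat.card (stab d) : ℤ) * (lnum (stab d) (br (top d) (fun t : C => e t)) : ℤ)) ∧
  ∑ d ∈ chainsOn (psubIn ℓ Y') ⊥, (-1) ^ (d.card + 1) * ((Nat.card ↥(C ⊓ stab d) : ℤ) *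
      (rk (fun t : ↥(C ⊓ stab d) => br (top d) e t) (cfs F ↥(C ⊓ stab d)) : ℤ)) =
    ∑ d ∈ chainsOn (psubIn ℓ (Y'.subgroupOf C)) ⊥, (-1) ^ (d.card + 1) *
      ((Nat.card (stab d) : ℤ) *
        (rk (fun t : stab d => br (top d) (fun t : C => e t) t) (cfs F (stab d)) : ℤ))

/-- GUE: the alternating sum with Brauer maps over all chains is `YY`. -/
def GueStmt : Prop := ∀ (ℓ : ℕ) (F : Type) [Field F], GoodF ℓ F →
  ∀ (X : Type) [Group X] [Finite X] (Y : Subgroup X), Y.Normal → ∀ e : X → F, IsIdem e →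
  ∑ d ∈ chainsOn (psubIn ℓ Y) ⊥, (-1) ^ (d.card + 1) *
      ((Nat.card (stab d) : ℤ) * (lnum (stab d) (br (top d) e) : ℤ)) = YY ℓ Y e

/-- RKR: the relative theorem of Knörr and Robinson, when the sums of the proper centralisers
vanish. -/
def RkrStmt : Prop := ∀ (ℓ : ℕ) (F : Type) [Field F], GoodF ℓ F →
  ∀ (X : Type) [Group X] [Finite X] (Y : Subgroup X), Y.Normal → ∀ e : X → F, IsIdem e →
  (∀ u : X, u ≠ 1 → (∃ n : ℕ, u ^ ℓ ^ n = 1) → Subgroup.zpowers u ⊓ Y = ⊥ →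
    YY ℓ ((Subgroup.centralizer ({u} : Set X) ⊓ Y).subgroupOf (Subgroup.centralizer ({u} : Set X)))
      (fun t : Subgroup.centralizer ({u} : Set X) => e t) = 0) →
  ∑ d ∈ chainsOn (psubIn ℓ Y) ⊥, (-1) ^ (d.card + 1) *
      ((Nat.card (stab d) : ℤ) * (rk (fun t : stab d => br (top d) e t) (cfs F (stab d)) : ℤ)) =
    YY ℓ Y e ∧
  ∀ L : Subgroup X, L.Normal → Y ≤ L → (∃ n : ℕ, L.index = ℓ ^ n) →
    ∑ d ∈ chainsOn (psubIn ℓ Y) ⊥, (-1) ^ (d.card + 1) * ((Nat.card (stab d) : ℤ) *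
      (rk (fun t : stab d => br (top d) e t) (cfsO F (L.subgroupOf (stab d))) : ℤ)) = 0

/-- LQR: the ranks of a central idempotent `a` for a normal subgroup `L` of index `ℓ`. -/
def LqrStmt : Prop := ∀ (ℓ : ℕ) (F : Type) [Field F], GoodF ℓ F → ∀ (G : Type) [Group G] [Finite G]
  (L : Subgroup G), L.Normal → L.index = ℓ → ∀ a : G → F, IsIdem a → (∀ x, x ∉ L → a x = 0) →
  ℓ * rk a (cfs F G) = rk (fun t : L => a t) (cfs F L) + (ℓ + 1) * rk a (cfsO F L)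

/-- LQM: the same for the residue fields of the algebraic integers. -/
def LqmStmt : Prop := ∀ (ℓ : ℕ), ℓ.Prime → ∀ (M : Ideal (integralClosure ℤ ℂ)) [M.IsMaximal],
  (ℓ : integralClosure ℤ ℂ) ∈ M → letI := Ideal.Quotient.field M;
  ∀ (G : Type) [Group G] [Finite G] (L : Subgroup G), L.Normal → L.index = ℓ →
  ∀ a : G → FF M, IsIdem a → (∀ x, x ∉ L → a x = 0) →
  ℓ * rk a (cfs (FF M) G) = rk (fun t : L => a t) (cfs (FF M) L) + (ℓ + 1) * rk a (cfsO (FF M) L)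

/-- FIS: all good fields are isomorphic to the residue fields of the algebraic integers. -/
def FisStmt : Prop := ∀ (ℓ : ℕ) (F : Type) [Field F], GoodF ℓ F →
  ∃ (M : Ideal (integralClosure ℤ ℂ)) (_ : M.IsMaximal), (ℓ : integralClosure ℤ ℂ) ∈ M ∧
    Nonempty (F ≃+* FF M)

/-- LQ: normal subgroups of index `ℓ`, for one central idempotent `e`. -/
def LqStmt : Prop := ∀ (ℓ : ℕ) [Fact ℓ.Prime] (F : Type) [Field F], GoodF ℓ F →
  ∀ (X : Type) [Group X] [Finite X] (Y X₀ : Subgroup X), Y.Normal → X₀.Normal → Y ≤ X₀ →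
  X₀.index = ℓ → ¬ ℓ ∣ Nat.card (Subgroup.centralizer (Y : Set X)) →
  (∀ (H : Type) [Group H] [Finite H] (i : H →* X) (Y' : Subgroup H), Function.Injective i →
    Y'.Normal → Y'.map i ≤ Y → mu Y' < mu Y → YH ℓ F Y') →
  ∀ e : X → F, IsIdem e → Pos ℓ e Y →
    YY ℓ (Y.subgroupOf X₀) (fun t : X₀ => e t) = 0 → YY ℓ Y e = 0

/-- LQN: normal subgroups of index a power of `ℓ`. -/
def LqnStmt : Prop := ∀ (ℓ : ℕ) [Fact ℓ.Prime] (F : Type) [Field F], GoodF ℓ F →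
  ∀ (X : Type) [Group X] [Finite X] (Y X₀ : Subgroup X), Y.Normal → X₀.Normal → Y ≤ X₀ →
  (∃ n : ℕ, X₀.index = ℓ ^ n) → ¬ ℓ ∣ Nat.card (Subgroup.centralizer (Y : Set X)) →
  (∀ (H : Type) [Group H] [Finite H] (i : H →* X) (Y' : Subgroup H), Function.Injective i →
    Y'.Normal → Y'.map i ≤ Y → mu Y' < mu Y → YH ℓ F Y') →
  ∀ e : X → F, IsIdem e → Pos ℓ e Y →
    YY ℓ (Y.subgroupOf X₀) (fun t : X₀ => e t) = 0 → YY ℓ Y e = 0

/-- LQU: the end of the proof of S1, in the group `D`, with the hypothesis only for the subgroups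
`D₀` such that `D₀ / M` is an `ℓ'`-group. -/
def LquStmt : Prop := ∀ (ℓ : ℕ) [Fact ℓ.Prime] (F : Type) [Field F], GoodF ℓ F →
  ∀ (D : Type) [Group D] [Finite D] (M : Subgroup D), M.Normal →
  Subgroup.centralizer (M : Set D) = Subgroup.center D → ¬ ℓ ∣ Nat.card (Subgroup.center D) →
  Subgroup.center D ≤ M → (∃ n : ℕ, (⊤ : Subgroup D).lowerCentralSeries n ≤ M) →
  GoodP ℓ F M → Ylt ℓ F (mu M) →
  ∀ f : D → F, IsIdem f → Pos ℓ f M →
  (∀ D₀ : Subgroup D, M ≤ D₀ → D₀.Normal → ¬ ℓ ∣ M.relIndex D₀ → IsIdem (fun t : D₀ => f t) →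
    Pos ℓ (fun t : D₀ => f t) ⊤ → YY ℓ ⊤ (fun t : D₀ => f t) = 0) →
  YY ℓ M f = 0

end Pool.Agent.PP
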