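import Pool.Agent.Helper66_PP.StmtsJ
import Pool.Agent.Helper18_PP.Good

/-!
# Squad PP, part J: the form of the doubling theorem used by the master induction
-/

noncomputable section

namespace Pool.Agent.PP.H66

open Pool.Agent.PP

/-- DBC -/
theorem dbc (h : DblnStmt) : DblStmt := by
  intro ℓ _ F _ hF τ hτ X _ _ Y hY f hf hd m hm hy hg
  refine h ℓ F hF τ hτ X Y hY f hf hd ?_
  rintro H₁ _ _ Q₁ hQ ⟨e⟩ hmu _ ⟨i, hi⟩
  exact hy H₁ Q₁ hQ (lt_of_le_of_lt hmu hm) (hg.of_prod i hi e.toMonoidHom e.injective)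

end Pool.Agent.PP.H66
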