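import Pool.Agent.Helper66_PP.StmtsJ
import Pool.Agent.Helper94_PP.Nch

/-!
# Squad PP, part J: LCT and BBY
-/

open scoped BigOperators

noncomputable section

namespace Pool.Agent.PP.H66

open Pool.Agent.PP Pool.Agent.Helper51_AWC Pool.Agent.Helper79_WRA

/-- LCT -/
theorem lct : LctStmt := by
  intro ℓ X _ _ Y _ t ht hn
  rw [mem_chainsOn] at ht
  obtain ⟨h1, h2, h3⟩ := ht
  obtain ⟨htop, hle⟩ := Pool.Agent.PP.H94.top_mem h3 ⟨_, h2⟩
  have hY := mem_psubIn.1 (h1 htop)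
  refine ⟨hY.2, hY.1, ?_, ?_, ?_⟩
  · exact le_iInf₂ fun D hD => hn D hD
  · refine le_iInf₂ fun D hD => ?_
    refine le_trans ?_ (Subgroup.centralizer_le_normalizer _)
    exact Subgroup.centralizer_le (hle D hD)
  · exact iInf₂_le (top t) htop

section bby

variable {F X : Type} [Field F] [Group X] {f : X → F} {Y M : Subgroup X}

omit [Field F] in
theorem cjF_mul (x y : X) (u : X → F) : cjF (x * y) u = cjF x (cjF y u) := by
  funext h
  unfold cjF
  congr 1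
  group

omit [Field F] in
theorem cjF_of_mem {n : X} (hn : n ∈ Y) {c : X → F} (hc : ∀ n ∈ Y, ∀ h, c (n * h * n⁻¹) = c h) :
    cjF n c = c := by
  funext h
  have := hc n⁻¹ (Y.inv_mem hn) h
  rw [inv_inv] at this
  exact this

omit [Field F] in
theorem cjF_mul_of_mem {x n : X} (hn : n ∈ Y) {c : X → F}
    (hc : ∀ n ∈ Y, ∀ h, c (n * h * n⁻¹) = c h) : cjF (x * n) c = cjF x c := by
  rw [cjF_mul, cjF_of_mem hn hc]

theorem omS_mul {e : X → F} {x y n m : X} (hn : n ∈ Y) (hm : m ∈ Y) :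
    omS f Y M e (x * n) (y * m) = omS f Y M e x y := by
  ext ω
  constructor
  · rintro ⟨h1, h2, h3, h4⟩
    refine ⟨h1, h2, fun d hd => ?_, fun d hd => ?_⟩
    · rw [← h3 d hd, cjF_mul_of_mem hn hd.cc.inv]
    · rw [← h4 d hd, cjF_mul_of_mem hm hd.cc.inv]
  · rintro ⟨h1, h2, h3, h4⟩
    refine ⟨h1, h2, fun d hd => ?_, fun d hd => ?_⟩
    · rw [cjF_mul_of_mem hn hd.cc.inv, h3 d hd]
    · rw [cjF_mul_of_mem hm hd.cc.inv, h4 d hd]

theorem impW_mul {m : ℕ} {W : (X → F) →ₗ[F] Matrix (Fin m) (Fin m) F} {x n : X} (hn : n ∈ Y)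
    (A : Matrix (Fin m) (Fin m) F) : ImpW f Y M W (x * n) A ↔ ImpW f Y M W x A := by
  constructor
  · rintro ⟨h1, h2⟩
    refine ⟨h1, fun d hd => ?_⟩
    rw [h2 d hd, cjF_mul_of_mem hn hd.cc.inv]
  · rintro ⟨h1, h2⟩
    refine ⟨h1, fun d hd => ?_⟩
    rw [h2 d hd, cjF_mul_of_mem hn hd.cc.inv]

theorem isSW_mul {ω : (X → F) → F} {x y n m : X} {u : X → F} (hn : n ∈ Y) (hm : m ∈ Y) (c : F) :
    IsSW f Y M ω (x * n) (y * m) u c ↔ IsSW f Y M ω x y u c := by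
  unfold IsSW
  simp only [impW_mul hn, impW_mul hm]

theorem sW_mul {ω : (X → F) → F} {x y n m : X} {u : X → F} (hn : n ∈ Y) (hm : m ∈ Y) :
    sW f Y M ω (x * n) (y * m) u = sW f Y M ω x y u := by
  have h : IsSW f Y M ω (x * n) (y * m) u = IsSW f Y M ω x y u :=
    funext fun c => propext (isSW_mul hn hm c)
  unfold sW
  rw [h]

end bby

/-- BBY -/
theorem bby : BbyStmt := by
  intro ℓ F _ _ τ X _ _ Y _ f _ M e _ _ x y u n hn m hm
  unfold BB
  rw [omS_mul hn hm]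
  simp only [sW_mul hn hm]

end Pool.Agent.PP.H66
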