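import Pool.Agent.Helper46_PP.StmtsTop

/-!
# Squad PP: the final form of the hypothesis on nearly simple groups

(V) the outer part `(D/Z(D))/T` is generated by two elements, (VI) `Z(D) ≤ [D, D]`.
-/

open scoped BigOperators

noncomputable section

namespace Pool.Agent.PP

open Pool.Agent.Helper51_AWC Pool.Agent.Helper79_WRA

/-- `D/Z(D)` is almost simple, its socle `T` (a normal subgroup with trivial centraliser) is
isomorphic to `S`, and `(D/Z(D))/T` is a nilpotent group of order prime to `ℓ` which is generated by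
two elements. -/
def NearlySimpleF (ℓ : ℕ) (D S : Type) [Group D] [Group S] : Prop :=
  ∃ T : Subgroup (D ⧸ Subgroup.center D),
    T.Normal ∧ Subgroup.centralizer (T : Set (D ⧸ Subgroup.center D)) = ⊥ ∧ Nonempty (T ≃* S) ∧
      (∃ n : ℕ, (⊤ : Subgroup (D ⧸ Subgroup.center D)).lowerCentralSeries n ≤ T) ∧
      ¬ ℓ ∣ T.index ∧ ∃ a b : D ⧸ Subgroup.center D, T ⊔ Subgroup.closure {a, b} = ⊤

theorem NearlySimpleF.nearlySimpleL {ℓ : ℕ} {D S : Type} [Group D] [Group S]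
    (h : NearlySimpleF ℓ D S) : NearlySimpleL ℓ D S := by
  obtain ⟨T, h1, h2, h3, h4, h5, -⟩ := h
  exact ⟨T, h1, h2, h3, h4, h5⟩

/-- `GoodP` for the groups `D` whose outer part is generated by two elements. -/
def GoodV (ℓ : ℕ) (F : Type) [Field F] {H : Type} [Group H] (N : Subgroup H) : Prop :=
  ∀ (S : Type) [Group S] [Finite S], NonabSimple S → ℓ ∣ Nat.card S → Involves N S →
  ∀ (D : Type) [Group D] [Finite D], opCore ℓ D = ⊥ → NearlySimpleF ℓ D S →
  Involves H (D ⧸ Subgroup.center D) → ∀ e : D → F, IsIdem e →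
  (∀ z ∈ Subgroup.center D, z ≠ 1 → ∃ c : F, c ≠ 1 ∧ ∀ x, e (z * x) = c * e x) →
  Pos ℓ e ⊤ → YY ℓ ⊤ e = 0

/-- `GoodV` for the groups `D` with `Z(D) ≤ [D, D]`. -/
def GoodQ (ℓ : ℕ) (F : Type) [Field F] {H : Type} [Group H] (N : Subgroup H) : Prop :=
  ∀ (S : Type) [Group S] [Finite S], NonabSimple S → ℓ ∣ Nat.card S → Involves N S →
  ∀ (D : Type) [Group D] [Finite D], opCore ℓ D = ⊥ → NearlySimpleF ℓ D S →
  Involves H (D ⧸ Subgroup.center D) → Subgroup.center D ≤ commutator D →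
  ∀ e : D → F, IsIdem e →
  (∀ z ∈ Subgroup.center D, z ≠ 1 → ∃ c : F, c ≠ 1 ∧ ∀ x, e (z * x) = c * e x) →
  Pos ℓ e ⊤ → YY ℓ ⊤ e = 0

/-- (V): two generators of the outer part suffice. -/
def VStmt : Prop := ∀ (ℓ : ℕ) [Fact ℓ.Prime] (F : Type) [Field F], GoodF ℓ F →
  ∀ (H : Type) [Group H] [Finite H] (N : Subgroup H), N.Normal → GoodV ℓ F N → GoodP ℓ F N

/-- (VI): the groups `D` with `Z(D) ≤ [D, D]` suffice. -/
def StmStmt : Prop := ∀ (ℓ : ℕ) [Fact ℓ.Prime] (F : Type) [Field F], GoodF ℓ F →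
  ∀ (H : Type) [Group H] [Finite H] (N : Subgroup H), N.Normal → GoodQ ℓ F N → GoodV ℓ F N

end Pool.Agent.PP
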