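import Pool.Agent.Helper39_AWR.Pos3

/-!
# Squad PP, part V: positivity and normal subgroups of index prime to `ℓ`
-/

open scoped BigOperators

noncomputable section

namespace Pool.Agent.PP.H66

open Pool.Agent.Helper51_AWC Pool.Agent.Helper79_WRA Pool.Agent.PP Pool.Agent.PP.H94
open Pool.Agent.AWR.H39

variable {F X : Type} [Field F] [Group X] [Finite X]

/-- The elements of the projective centre vanish at the elements which are not of defect zero. -/
theorem pc_supp {ℓ : ℕ} {N : Type} [Group N] [Finite N] {b : N → F} (hb : b ∈ PC F ℓ N) (y : N)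
    (hy : ℓ ∣ Nat.card (Subgroup.centralizer ({y} : Set N))) : b y = 0 := by
  unfold PC at hb
  induction hb using Submodule.span_induction with
  | zero => rfl
  | add f g _ _ hf hg =>
    change f y + g y = 0
    rw [hf, hg, add_zero]
  | smul c f _ hf =>
    change c * f y = 0
    rw [hf, mul_zero]
  | mem f hf =>
    obtain ⟨x, hx, rfl⟩ := hf
    unfold clsum
    rw [if_neg]
    rintro ⟨q, -, hyq⟩
    rw [hyq] at hy
    apply hx
    have h : Nat.card (Subgroup.centralizer ({q * x * q⁻¹} : Set N)) =
        Nat.card (Subgroup.centralizer ({x} : Set N)) := by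
      refine Nat.card_congr
        { toFun := fun g => ⟨q⁻¹ * g * q, ?_⟩
          invFun := fun g => ⟨q * g * q⁻¹, ?_⟩
          left_inv := fun g => Subtype.ext (by simp [mul_assoc])
          right_inv := fun g => Subtype.ext (by simp [mul_assoc]) }
      · have h1 := Subgroup.mem_centralizer_iff.1 g.2 (q * x * q⁻¹) rfl
        rw [Subgroup.mem_centralizer_iff]
        intro z hz
        rw [Set.mem_singleton_iff.1 hz]
        have h2 := congrArg (fun z => q⁻¹ * z * q) h1
        have e1 : q⁻¹ * (q * x * q⁻¹ * (g : N)) * q = x * (q⁻¹ * g * q) := by group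
        have e2 : q⁻¹ * ((g : N) * (q * x * q⁻¹)) * q = q⁻¹ * g * q * x := by group
        change q⁻¹ * (q * x * q⁻¹ * (g : N)) * q = q⁻¹ * ((g : N) * (q * x * q⁻¹)) * q at h2
        rw [e1, e2] at h2
        exact h2
      · have h1 := Subgroup.mem_centralizer_iff.1 g.2 x rfl
        rw [Subgroup.mem_centralizer_iff]
        intro z hz
        rw [Set.mem_singleton_iff.1 hz]
        have h2 := congrArg (fun z => q * z * q⁻¹) h1
        have e1 : q * (x * (g : N)) * q⁻¹ = q * x * q⁻¹ * (q * g * q⁻¹) := by group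
        have e2 : q * ((g : N) * x) * q⁻¹ = q * g * q⁻¹ * (q * x * q⁻¹) := by group
        change q * (x * (g : N)) * q⁻¹ = q * ((g : N) * x) * q⁻¹ at h2
        rw [e1, e2] at h2
        exact h2
    rw [← h]
    exact hy

/-- a class function as a combination of class sums -/
theorem cl_eq_sum [Fintype (ConjClasses X)] {b : X → F} (hb : IsCl b) :
    b = ∑ c : ConjClasses X, b c.out • clsum F ⊤ (c.out : X) := by
  funext x
  rw [Finset.sum_apply, Finset.sum_eq_single (ConjClasses.mk x)]
  · have h : IsConj ((ConjClasses.mk x).out : X) x :=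
      ConjClasses.mk_eq_mk_iff_isConj.1 (Quotient.out_eq (ConjClasses.mk x))
    obtain ⟨q, hq⟩ := isConj_iff.1 h
    change b x = b _ * clsum F ⊤ _ x
    unfold clsum
    rw [if_pos ⟨q, Subgroup.mem_top q, hq.symm⟩, mul_one]
    conv_lhs => rw [← hq]
    exact hb _ _
  · intro c _ hc
    change b _ * clsum F ⊤ _ x = 0
    unfold clsum
    rw [if_neg, mul_zero]
    rintro ⟨q, -, hq⟩
    apply hc
    have h1 : ConjClasses.mk x = ConjClasses.mk (c.out : X) := by
      rw [ConjClasses.mk_eq_mk_iff_isConj]
      exact IsConj.symm (isConj_iff.2 ⟨q, hq.symm⟩)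
    rw [h1]
    exact (Quotient.out_eq c).symm
  · intro h
    exact absurd (Finset.mem_univ _) h

/-- the centraliser of an element of a normal subgroup of index prime to `ℓ` -/
theorem cent_index {ℓ : ℕ} (hℓ : ℓ.Prime) (Y : Subgroup X) [Y.Normal] (hi : ¬ ℓ ∣ Y.index) (y : Y)
    (hy : ¬ ℓ ∣ Nat.card (Subgroup.centralizer ({y} : Set Y))) :
    ¬ ℓ ∣ Nat.card (Subgroup.centralizer ({(y : X)} : Set X)) := by
  intro h
  set C := Subgroup.centralizer ({(y : X)} : Set X) with hC
  have h1 : Nat.card (C ⊓ Y : Subgroup X) * Y.relIndex C = Nat.card C := by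
    have := Subgroup.relIndex_mul_relIndex ⊥ (C ⊓ Y) C bot_le inf_le_left
    rw [Subgroup.relIndex_bot_left, Subgroup.relIndex_bot_left, Subgroup.inf_relIndex_left] at this
    exact this
  have h2 : Y.relIndex C ∣ Y.index := Subgroup.relIndex_dvd_index_of_normal Y C
  have h3 : Nat.card (C ⊓ Y : Subgroup X) = Nat.card (Subgroup.centralizer ({y} : Set Y)) := by
    refine Nat.card_congr
      { toFun := fun g => ⟨⟨g, g.2.2⟩, ?_⟩
        invFun := fun g => ⟨g, ?_, g.1.2⟩
        left_inv := fun g => rfl
        right_inv := fun g => rfl }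
    · rw [Subgroup.mem_centralizer_iff]
      intro z hz
      rw [Set.mem_singleton_iff.1 hz]
      apply Subtype.ext
      exact Subgroup.mem_centralizer_iff.1 g.2.1 (y : X) rfl
    · have h4 := Subgroup.mem_centralizer_iff.1 g.2 y rfl
      change (g : X) ∈ Subgroup.centralizer ({(y : X)} : Set X)
      rw [Subgroup.mem_centralizer_iff]
      intro z hz
      rw [Set.mem_singleton_iff.1 hz]
      exact congrArg Subtype.val h4
  rw [← h1, h3] at h
  rcases hℓ.dvd_mul.1 h with h4 | h4
  · exact hy h4
  · exact hi (h4.trans h2)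

/-- Over a class function of defect zero of a normal subgroup of index prime to `ℓ` there is no
positive idempotent. -/
theorem posx {ℓ : ℕ} (hF : GoodF ℓ F) (Y : Subgroup X) [Y.Normal] (hi : ¬ ℓ ∣ Y.index)
    {b : X → F} (hb0 : ∀ x, x ∉ Y → b x = 0) (hbc : IsCl b) (hdz : DZ ℓ (fun t : Y => b t))
    {e : X → F} (he : IsIdem e) (heb : mulF e b = e) (hp : Pos ℓ e ⊤) : e = 0 := by
  classical
  have hfC : Fintype (ConjClasses X) := Fintype.ofFinite _
  -- products with elements of the projective centre are nilpotent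
  have hbX : b ∈ PC F ℓ X := by
    rw [cl_eq_sum hbc]
    refine Submodule.sum_mem _ fun c _ => ?_
    by_cases h0 : b (c.out : X) = 0
    · rw [h0, zero_smul]
      exact Submodule.zero_mem _
    · have hY : (c.out : X) ∈ Y := by
        by_contra h
        exact h0 (hb0 _ h)
      refine Submodule.smul_mem _ _ (Submodule.subset_span ⟨_, ?_, rfl⟩)
      refine cent_index hF.prime Y hi ⟨_, hY⟩ fun h => h0 ?_
      exact pc_supp (N := Y) (b := fun t : Y => b t) hdz ⟨_, hY⟩ h
  have hcen : ∀ {a : X → F}, IsCl a → ∀ z, Commute (ma a) z := by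
    intro a ha z
    have := (isCl_iff a).1 ha
    rw [Subalgebra.mem_center_iff] at this
    exact (this z).symm
  have hee : ma e * ma e = ma e := ((isIdem_iff e).1 he).2
  have key : ∀ a ∈ PC F ℓ X, IsCl a ∧ IsNilpotent (ma a * ma e) := by
    intro a ha
    unfold PC at ha
    induction ha using Submodule.span_induction with
    | zero => exact ⟨fun _ _ => rfl, 1, by rw [ma_zero, zero_mul, pow_one]⟩
    | add f g _ _ hf hg =>
      refine ⟨(cfs F X).add_mem hf.1 hg.1, ?_⟩
      rw [ma_add, add_mul]
      exact Commute.isNilpotent_add ((hcen hf.1 _).mul_left (hcen he.1 _)) hf.2 hg.2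
    | smul c f _ hf =>
      refine ⟨(cfs F X).smul_mem c hf.1, ?_⟩
      rw [ma_smul, smul_mul_assoc]
      exact hf.2.smul c
    | mem f hf =>
      obtain ⟨x, hx, rfl⟩ := hf
      refine ⟨clsum_cl x, ?_⟩
      obtain ⟨n, hn⟩ := hp x (Subgroup.mem_top x) (by rwa [inf_top_eq])
      refine ⟨n + 1, ?_⟩
      have h1 := ma_iterate (clsum F ⊤ x) e n
      rw [hn, ma_zero] at h1
      rw [(hcen (clsum_cl x) (ma e)).mul_pow, pow_succ' (ma e), ← mul_assoc, pow_succ',
        mul_assoc (ma (clsum F ⊤ x)), ← h1, mul_zero, zero_mul]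
  -- `e = e b` is nilpotent
  obtain ⟨n, hn⟩ := (key b hbX).2
  have h1 : ma b * ma e = ma e := by
    rw [(hcen hbc (ma e)).eq, ← ma_mul, heb]
  have h2 : ∀ k : ℕ, ma e ^ (k + 1) = ma e := by
    intro k
    induction k with
    | zero => rw [zero_add, pow_one]
    | succ k ih => rw [pow_succ, ih, hee]
  apply ma_injective
  rw [ma_zero]
  rw [h1] at hn
  rw [← h2 n, pow_succ, hn, zero_mul]

end Pool.Agent.PP.H66
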