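import Pool.Agent.Helper96_PP.StmtsA
import Pool.Agent.Helper58_CL.Stmt

/-!
# Squad PP, part J: definitions (AWC_J, J0)

`X` is a finite group, `Y` a normal subgroup, `f` a block idempotent of `F Y` which is stable under
`X`; elements of the group ring are functions.
-/

open scoped BigOperators

noncomputable section

namespace Pool.Agent.PP

open Pool.Agent.Helper51_AWC Pool.Agent.Helper79_WRA

section defs

variable {F X : Type} [Field F] [Group X]

/-- a block idempotent of the normal subgroup `Y` which is stable under `X`, extended by zero -/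
structure SBlk (Y : Subgroup X) (f : X → F) : Prop where
  supp : ∀ x, x ∉ Y → f x = 0
  cl : IsCl f
  blk : IsBlk (fun t : Y => f t)

/-- `u ∈ C_g`: `u` is supported on `g Y`, commutes with `Y` and satisfies `f u = u` -/
structure CE (f : X → F) (Y : Subgroup X) (g : X) (u : X → F) : Prop where
  supp : ∀ h, g⁻¹ * h ∉ Y → u h = 0
  inv : ∀ n ∈ Y, ∀ h, u (n * h * n⁻¹) = u h
  abs : mulF f u = u

/-- `u ∈ C`: `u` commutes with `Y` and satisfies `f u = u` -/
structure CC (f : X → F) (Y : Subgroup X) (u : X → F) : Prop where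
  inv : ∀ n ∈ Y, ∀ h, u (n * h * n⁻¹) = u h
  abs : mulF f u = u

/-- `(u, u')` is a unit over `g` -/
structure IsUnitOver (f : X → F) (Y : Subgroup X) (g : X) (u u' : X → F) : Prop where
  left : CE f Y g u
  right : CE f Y g⁻¹ u'
  mul : mulF u u' = f

/-- the group `X[f]` of all `g` such that there is a unit over `g` -/
def XF (f : X → F) (Y : Subgroup X) : Subgroup X :=
  Subgroup.closure {g | ∃ u u', IsUnitOver f Y g u u'}

/-- conjugation of functions: `x u x⁻¹` -/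
def cjF (x : X) (u : X → F) : X → F := fun h => u (x⁻¹ * h * x)

/-- `J₁ C`: the span of the products `z c` of nilpotent elements `z` of `C₁` and elements `c` of
`C` -/
def J1C (f : X → F) (Y : Subgroup X) : Submodule F (X → F) :=
  Submodule.span F {w | ∃ z c, CE f Y 1 z ∧ (∃ n : ℕ, (mulF z)^[n] z = 0) ∧ CC f Y c ∧
    w = mulF z c}

/-- The residue `λ : C₁ → F`, `IsRes f z (λ z)`: the element `z - λ(z) f` is nilpotent. -/
def IsRes (f : X → F) (z : X → F) (c : F) : Prop := ∃ n : ℕ, (mulF (z - c • f))^[n] (z - c • f) = 0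

/-- the irreducible modular characters of `Y ∩ S` in the block `f` fixed by `x` and `y` -/
def phiS (Y S : Subgroup X) (f : X → F) (x y : X) : Set (↥(Y ⊓ S) → F) :=
  {φ | φ ∈ IBr F ↥(Y ⊓ S) ∧ actF (fun t : ↥(Y ⊓ S) => f t) φ = φ ∧
    (∀ n n' : ↥(Y ⊓ S), (n' : X) = x * n * x⁻¹ → φ n' = φ n) ∧
    (∀ n n' : ↥(Y ⊓ S), (n' : X) = y * n * y⁻¹ → φ n' = φ n)}

/-- `A` implements the conjugation by `x` on the representation `ρ` of `L` -/
def ImpJ {L : Subgroup X} {n : ℕ} (ρ : L →* Matrix (Fin n) (Fin n) F) (x : X)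
    (A : Matrix (Fin n) (Fin n) F) : Prop :=
  IsUnit A ∧ ∀ g g' : L, (g' : X) = x * g * x⁻¹ → A * ρ g = ρ g' * A

/-- `IsSC S R φ x y u c`: the scalar `[A, B] ρ(k⁻¹ Br_R(u)) = c`, `k = x y x⁻¹ y⁻¹`, in the form
`ρ(k⁻¹ Br_R(u)) A B = c B A`. -/
def IsSC (Y S R : Subgroup X) (φ : ↥(Y ⊓ S) → F) (x y : X) (u : X → F) (c : F) : Prop :=
  ∃ (n : ℕ) (ρ : ↥(Y ⊓ S) →* Matrix (Fin n) (Fin n) F) (A B : Matrix (Fin n) (Fin n) F),
    IsIrr ρ ∧ tr ρ = φ ∧ ImpJ ρ x A ∧ ImpJ ρ y B ∧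
      ev ρ (fun t : ↥(Y ⊓ S) => br R u (x * y * x⁻¹ * y⁻¹ * t)) * (A * B) = c • (B * A)

/-- the scalar `c_φ(x, y; u)` -/
def sc (Y S R : Subgroup X) (φ : ↥(Y ⊓ S) → F) (x y : X) (u : X → F) : F :=
  open Classical in if h : ∃ c, IsSC Y S R φ x y u c then h.choose else 0

/-- the sum `S_S(x, y; u)` of the lifted scalars -/
def SS (τ : F → ℂ) (Y S R : Subgroup X) (f : X → F) (x y : X) (u : X → F) : ℂ :=
  ∑ᶠ φ ∈ phiS Y S f x y, τ (sc Y S R φ x y u)

/-- The pair sum `D_Y(x, y; u)`. -/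
def DJ [Finite X] (τ : F → ℂ) (ℓ : ℕ) (Y : Subgroup X) (f : X → F) (x y : X) (u : X → F) : ℂ :=
  open Classical in
  ∑ᶠ (n : Y) (m : Y), ∑ t ∈ (chainsOn (psubIn ℓ Y) ⊥).filter
      (fun t => NormalChain t ∧ x * n ∈ stab t ∧ y * m ∈ stab t),
    (-1 : ℂ) ^ (t.card + 1) * (Nat.card ↥(Y ⊓ stab t) : ℂ)⁻¹ *
      SS τ Y (stab t) (top t) f (x * n) (y * m) u

/-- A subgroup `S` between the centraliser and the normaliser of the `ℓ`-subgroup `R ≤ Y`. -/
structure Loc (ℓ : ℕ) (Y R S : Subgroup X) : Prop where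
  pgrp : IsPGroup ℓ R
  le : R ≤ Y
  leS : R ≤ S
  cent : Subgroup.centralizer (R : Set X) ≤ S
  norm : S ≤ Subgroup.normalizer (R : Set X)

/-! ### Irreducible representations of the algebra `D = C ∩ F M` -/

/-- `d ∈ D`: an element of `C` supported on `M` -/
structure DE (f : X → F) (Y M : Subgroup X) (d : X → F) : Prop where
  cc : CC f Y d
  supp : ∀ h, h ∉ M → d h = 0

/-- An irreducible matrix representation of `D`. -/
structure IrrD (f : X → F) (Y M : Subgroup X) {m : ℕ}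
    (W : (X → F) →ₗ[F] Matrix (Fin m) (Fin m) F) : Prop where
  pos : 0 < m
  one : W f = 1
  mul : ∀ a b, DE f Y M a → DE f Y M b → W (mulF a b) = W a * W b
  irr : Submodule.span F (W '' {d | DE f Y M d}) = ⊤

/-- The trace functions of the irreducible representations of `D`: functions on the set of all
functions, zero outside `D`. -/
def IrD (f : X → F) (Y M : Subgroup X) : Set ((X → F) → F) :=
  open Classical in {ω | ∃ (m : ℕ) (W : (X → F) →ₗ[F] Matrix (Fin m) (Fin m) F), IrrD f Y M W ∧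
    ω = fun d => if DE f Y M d then (W d).trace else 0}

/-- `A` implements the conjugation by `x` on `W` -/
def ImpW (f : X → F) (Y M : Subgroup X) {m : ℕ} (W : (X → F) →ₗ[F] Matrix (Fin m) (Fin m) F)
    (x : X) (A : Matrix (Fin m) (Fin m) F) : Prop :=
  IsUnit A ∧ ∀ d, DE f Y M d → A * W d = W (cjF x d) * A

/-- `c_W(x, y; u)`, `A B = c W(u) B A`. -/
def IsSW (f : X → F) (Y M : Subgroup X) (ω : (X → F) → F) (x y : X) (u : X → F) (c : F) : Prop :=
  open Classical in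
  ∃ (m : ℕ) (W : (X → F) →ₗ[F] Matrix (Fin m) (Fin m) F) (A B : Matrix (Fin m) (Fin m) F),
    IrrD f Y M W ∧ (ω = fun d => if DE f Y M d then (W d).trace else 0) ∧
    ImpW f Y M W x A ∧ ImpW f Y M W y B ∧ A * B = c • (W u * (B * A))

/-- the scalar `c_W(x, y; u)` -/
def sW (f : X → F) (Y M : Subgroup X) (ω : (X → F) → F) (x y : X) (u : X → F) : F :=
  open Classical in if h : ∃ c, IsSW f Y M ω x y u c then h.choose else 0

/-- the elements of `Irr(D; e)` fixed by `x` and `y` -/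
def omS (f : X → F) (Y M : Subgroup X) (e : X → F) (x y : X) : Set ((X → F) → F) :=
  {ω | ω ∈ IrD f Y M ∧ (∀ d, DE f Y M d → ω (mulF e d) = ω d) ∧
    (∀ d, DE f Y M d → ω (cjF x d) = ω d) ∧ ∀ d, DE f Y M d → ω (cjF y d) = ω d}

/-- the sum `B_e(x, y; u)` -/
def BB (τ : F → ℂ) (f : X → F) (Y M : Subgroup X) (e : X → F) (x y : X) (u : X → F) : ℂ :=
  ∑ᶠ ω ∈ omS f Y M e x y, τ (sW f Y M ω x y u)

end defs

end Pool.Agent.PP
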