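import Pool.Agent.Helper66_PP.DefsJ
import Pool.Agent.Helper46_PP.StmtsTop

/-!
# Squad PP, part J: statements (AWC_J)

Everywhere `X` is a finite group, `Y` a normal subgroup, `f` a block idempotent of `F Y` stable
under `X` (`SBlk Y f`).  In all pair sums the FIRST variable `x` is `ℓ`-regular modulo `X[f]`.
-/

open scoped BigOperators

noncomputable section

namespace Pool.Agent.PP

open Pool.Agent.Helper51_AWC Pool.Agent.Helper79_WRA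

section defs

variable {F X : Type} [Field F] [Group X]

/-- the residue `λ(z)` of an element `z` of `C₁` -/
def lamJ (f z : X → F) : F :=
  open Classical in if h : ∃ c, IsRes f z c then h.choose else 0

/-- `x` is `ℓ`-regular modulo `L` -/
def RegM (ℓ : ℕ) (L : Subgroup X) (x : X) : Prop := ∃ s : ℕ, s.Coprime ℓ ∧ x ^ s ∈ L

/-- The pair sum `D_Y(x, y; u)` vanishes for all units `u` over `[x, y]`. -/
def DZero [Finite X] (τ : F → ℂ) (ℓ : ℕ) (Y : Subgroup X) (f : X → F) (x y : X) : Prop :=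
  ∀ u u', IsUnitOver f Y (x * y * x⁻¹ * y⁻¹) u u' → DJ τ ℓ Y f x y u = 0

/-- All the pair sums vanish. -/
def DAll [Finite X] (τ : F → ℂ) (ℓ : ℕ) (Y : Subgroup X) (f : X → F) : Prop :=
  ∀ x y, RegM ℓ (XF f Y) x → x * y * x⁻¹ * y⁻¹ ∈ XF f Y → DZero τ ℓ Y f x y

/-- The group `L` is nilpotent modulo `K`. -/
def NilMod {G : Type} [Group G] (L K : Subgroup G) : Prop :=
  ∃ n : ℕ, Subgroup.lowerCentralSeries L n ≤ K

/-! ### The double -/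

/-- `Λ = {(a, a') : a Y = a' Y}` -/
def Lam (Y : Subgroup X) [Y.Normal] : Subgroup (X × X) where
  carrier := {p | p.1⁻¹ * p.2 ∈ Y}
  one_mem' := by simp [Y.one_mem]
  mul_mem' := by
    rintro ⟨a, a'⟩ ⟨b, b'⟩ h h'
    have h1 : b⁻¹ * (a⁻¹ * a') * b⁻¹⁻¹ ∈ Y := Subgroup.Normal.conj_mem ‹_› _ h b⁻¹
    have h2 := Y.mul_mem h1 h'
    have e : b⁻¹ * (a⁻¹ * a') * b⁻¹⁻¹ * (b⁻¹ * b') = (a * b)⁻¹ * (a' * b') := by group
    rw [e] at h2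
    exact h2
  inv_mem' := by
    rintro ⟨a, a'⟩ h
    have h1 : a * (a⁻¹ * a')⁻¹ * a⁻¹ ∈ Y := Subgroup.Normal.conj_mem ‹_› _ (Y.inv_mem h) a
    have e : a * (a⁻¹ * a')⁻¹ * a⁻¹ = a⁻¹⁻¹ * a'⁻¹ := by group
    rw [e] at h1
    exact h1

/-- `v ⊗ S(v')` as a function on `Λ`, `S` the antipode -/
def sig (Y : Subgroup X) [Y.Normal] (v v' : X → F) : Lam Y → F := fun p => v p.1.1 * v' (p.1.2)⁻¹

/-- `Y × Y` as a subgroup of `Λ` -/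
def YY2 (Y : Subgroup X) [Y.Normal] : Subgroup (Lam Y) := (Y.prod Y).subgroupOf (Lam Y)

/-- the preimage of `L` in `Λ` under the first projection -/
def fstP (Y L : Subgroup X) [Y.Normal] : Subgroup (Lam Y) :=
  L.comap ((MonoidHom.fst X X).comp (Lam Y).subtype)

end defs

/-! ## J1 -/

/-- LOC (J1): the algebra `C₁ = Z(FY) f` is local. -/
def LocStmt : Prop := ∀ (ℓ : ℕ) (F : Type) [Field F], GoodF ℓ F →
  ∀ (X : Type) [Group X] [Finite X] (Y : Subgroup X), Y.Normal → ∀ f : X → F, SBlk Y f →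
  (∀ z, CE f Y 1 z → IsRes f z (lamJ f z) ∧ (∀ c, IsRes f z c → c = lamJ f z) ∧
    (lamJ f z ≠ 0 → ∃ z', CE f Y 1 z' ∧ mulF z z' = f)) ∧
  CE f Y 1 f ∧ lamJ f f = 1 ∧
  (∀ z z', CE f Y 1 z → CE f Y 1 z' → lamJ f (mulF z z') = lamJ f z * lamJ f z' ∧
    lamJ f (z + z') = lamJ f z + lamJ f z') ∧
  (∀ (c : F) z, CE f Y 1 z → lamJ f (c • z) = c * lamJ f z) ∧
  ∀ R S : Subgroup X, Loc ℓ Y R S → ∀ z, CE f Y 1 z → ∀ φ ∈ IBr F ↥(Y ⊓ S),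
    actF (fun t : ↥(Y ⊓ S) => f t) φ = φ → actF (fun t : ↥(Y ⊓ S) => br R z t) φ = lamJ f z • φ

/-! ## J2 -/

/-- XFS (J2): the group `X[f]` and its units. -/
def XfsStmt : Prop := ∀ (ℓ : ℕ) (F : Type) [Field F], GoodF ℓ F →
  ∀ (X : Type) [Group X] [Finite X] (Y : Subgroup X), Y.Normal → ∀ f : X → F, SBlk Y f →
  (∀ g, g ∈ XF f Y ↔ ∃ u u', IsUnitOver f Y g u u') ∧ (XF f Y).Normal ∧ Y ≤ XF f Y ∧
  (∀ g u u', IsUnitOver f Y g u u' → mulF u' u = f ∧ IsUnitOver f Y g⁻¹ u' u ∧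
    (∀ n ∈ Y, IsUnitOver f Y (g * n) u u') ∧
    (∀ x, IsUnitOver f Y (x * g * x⁻¹) (cjF x u) (cjF x u')) ∧
    (∀ v, CE f Y g v → ∃ z, CE f Y 1 z ∧ v = mulF z u) ∧
    (∀ c, CC f Y c → cjF g c = mulF (mulF u c) u') ∧
    ∀ h v v', IsUnitOver f Y h v v' → IsUnitOver f Y (g * h) (mulF u v) (mulF v' u')) ∧
  (∀ g, g ∉ XF f Y → ∀ a a', CE f Y g a → CE f Y g⁻¹ a' →
    CE f Y 1 (mulF a a') ∧ lamJ f (mulF a a') = 0) ∧
  (∀ n ∈ Y, ∀ c, CC f Y c → cjF n c = c) ∧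
  ∀ z c, CE f Y 1 z → CC f Y c → mulF z c = mulF c z

/-! ## J3 -/

/-- SUP (3.2): the central idempotents over `f` are supported on `X[f]`. -/
def SupJStmt : Prop := ∀ (ℓ : ℕ) (F : Type) [Field F], GoodF ℓ F →
  ∀ (X : Type) [Group X] [Finite X] (Y : Subgroup X), Y.Normal → ∀ f : X → F, SBlk Y f →
  ∀ e : X → F, IsIdem e → mulF e f = e → ∀ h, h ∉ XF f Y → e h = 0

/-- LFT (3.3): lifting of idempotents. -/
def LftStmt : Prop := ∀ (ℓ : ℕ) (F : Type) [Field F], GoodF ℓ F →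
  ∀ (X : Type) [Group X] [Finite X] (Y : Subgroup X), Y.Normal → ∀ f : X → F, SBlk Y f →
  ∀ M : Subgroup X, M.Normal → Y ≤ M → M ≤ XF f Y → ∀ s : X → F, DE f Y M s →
  mulF s s - s ∈ J1C f Y → (∀ d, DE f Y M d → mulF s d - mulF d s ∈ J1C f Y) →
  (∀ x, cjF x s - s ∈ J1C f Y) →
  ∃ E : X → F, IsIdem E ∧ (∀ h, h ∉ M → E h = 0) ∧ mulF E f = E ∧ E - s ∈ J1C f Y

/-- WJC: `J₁ C` acts as zero and `C₁` acts through the residue in the irreducible representations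
of `D`. -/
def WjcStmt : Prop := ∀ (ℓ : ℕ) (F : Type) [Field F], GoodF ℓ F →
  ∀ (X : Type) [Group X] [Finite X] (Y : Subgroup X), Y.Normal → ∀ f : X → F, SBlk Y f →
  ∀ M : Subgroup X, M.Normal → Y ≤ M → ∀ (m : ℕ) (W : (X → F) →ₗ[F] Matrix (Fin m) (Fin m) F),
  IrrD f Y M W → (∀ w ∈ J1C f Y, DE f Y M w → W w = 0) ∧
    ∀ z, CE f Y 1 z → W z = Matrix.scalar (Fin m) (lamJ f z)

/-! ## J4 -/

/-- LCT: the stabiliser of a normal chain is local. -/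
def LctStmt : Prop := ∀ (ℓ : ℕ) (X : Type) [Group X] [Finite X] (Y : Subgroup X), ℓ.Prime →
  ∀ t ∈ chainsOn (psubIn ℓ Y) ⊥, NormalChain t → Loc ℓ Y (top t) (stab t)

/-- INN (4.1): units are local. -/
def InnStmt : Prop := ∀ (ℓ : ℕ) (F : Type) [Field F], GoodF ℓ F →
  ∀ (X : Type) [Group X] [Finite X] (Y : Subgroup X), Y.Normal → ∀ f : X → F, SBlk Y f →
  ∀ R S : Subgroup X, Loc ℓ Y R S → br R f ≠ 0 →
  (∀ g ∈ XF f Y, ∃ n ∈ Y, g * n ∈ Subgroup.centralizer (R : Set X)) ∧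
  (∀ M : Subgroup X, Y ≤ M → M ≤ XF f Y →
    Nat.card ↥(M ⊓ S) = Y.relIndex M * Nat.card ↥(Y ⊓ S)) ∧
  ∀ φ ∈ IBr F ↥(Y ⊓ S), actF (fun t : ↥(Y ⊓ S) => f t) φ = φ → ∀ g ∈ XF f Y, g ∈ S →
    ∀ n n' : ↥(Y ⊓ S), (n' : X) = g * n * g⁻¹ → φ n' = φ n

/-- SCU (4.4): the scalars are well defined. -/
def ScuStmt : Prop := ∀ (ℓ : ℕ) (F : Type) [Field F], GoodF ℓ F →
  ∀ (X : Type) [Group X] [Finite X] (Y : Subgroup X), Y.Normal → ∀ f : X → F, SBlk Y f →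
  ∀ R S : Subgroup X, Loc ℓ Y R S → ∀ x ∈ S, ∀ y ∈ S, ∀ u u',
  IsUnitOver f Y (x * y * x⁻¹ * y⁻¹) u u' → ∀ φ ∈ phiS Y S f x y,
  sc Y S R φ x y u ≠ 0 ∧ IsSC Y S R φ x y u (sc Y S R φ x y u) ∧
    (∀ c, IsSC Y S R φ x y u c → c = sc Y S R φ x y u) ∧
    (∀ z z', CE f Y 1 z → CE f Y 1 z' → mulF z z' = f →
      sc Y S R φ x y (mulF z u) = lamJ f z * sc Y S R φ x y u) ∧
    sc Y S R φ y x u' = (sc Y S R φ x y u)⁻¹

/-- STA (4.5): the sums `S_S` do not depend on the representatives modulo `Y ∩ S`. -/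
def StaStmt : Prop := ∀ (ℓ : ℕ) (F : Type) [Field F], GoodF ℓ F → ∀ τ : F → ℂ, IsLift τ →
  ∀ (X : Type) [Group X] [Finite X] (Y : Subgroup X), Y.Normal → ∀ f : X → F, SBlk Y f →
  ∀ R S : Subgroup X, Loc ℓ Y R S → ∀ x ∈ S, ∀ y ∈ S, ∀ u u',
  IsUnitOver f Y (x * y * x⁻¹ * y⁻¹) u u' → ∀ n ∈ Y ⊓ S, ∀ m ∈ Y ⊓ S,
    SS τ Y S R f (x * n) (y * m) u = SS τ Y S R f x y u

/-! ## J5 -/

/-- TFA (J5): factorisation of the sums of the counting lemma. -/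
def TfaStmt : Prop := ∀ (ℓ : ℕ) (F : Type) [Field F], GoodF ℓ F → ∀ τ : F → ℂ, IsLift τ →
  ∀ (X : Type) [Group X] [Finite X] (Y : Subgroup X), Y.Normal → ∀ f : X → F, SBlk Y f →
  ∀ R S : Subgroup X, Loc ℓ Y R S → ∀ (M : Subgroup X) [(M.subgroupOf S).Normal], M.Normal →
  Y ≤ M → M ≤ XF f Y → ∀ e : X → F, IsIdem e → mulF e f = e → (∀ h, h ∉ M → e h = 0) →
  ∀ x y : S, (x * y * x⁻¹ * y⁻¹ : X) ∈ M → ∀ u u',
  IsUnitOver f Y (x * y * x⁻¹ * y⁻¹ : X) u u' →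
    csum τ (M.subgroupOf S) (fun t : S => e t) x y =
      BB τ f Y M e x y u * SS τ Y S R f x y u

/-- BBY: the sums `B_e` depend only on the cosets modulo `Y`. -/
def BbyStmt : Prop := ∀ (ℓ : ℕ) (F : Type) [Field F], GoodF ℓ F → ∀ τ : F → ℂ,
  ∀ (X : Type) [Group X] [Finite X] (Y : Subgroup X), Y.Normal → ∀ f : X → F, SBlk Y f →
  ∀ (M : Subgroup X) (e : X → F), M.Normal → Y ≤ M → ∀ x y u, ∀ n ∈ Y, ∀ m ∈ Y,
    BB τ f Y M e (x * n) (y * m) u = BB τ f Y M e x y u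

/-! ## J6 -/

/-- SUM (J6): the vanishing of the pair sums implies the vanishing of the relative alternating
sums. -/
def SumStmt : Prop := ∀ (ℓ : ℕ) (F : Type) [Field F], GoodF ℓ F → ∀ τ : F → ℂ, IsLift τ →
  ∀ (X : Type) [Group X] [Finite X] (Y : Subgroup X), Y.Normal → ∀ f : X → F, SBlk Y f →
  DAll τ ℓ Y f → ∀ e : X → F, IsIdem e → mulF e f = e → YY ℓ Y e = 0

/-! ## J7 -/

/-- MOV (7.1): the vanishing of the pair sums depends only on the cosets modulo `X[f]`. -/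
def MovStmt : Prop := ∀ (ℓ : ℕ) (F : Type) [Field F], GoodF ℓ F → ∀ τ : F → ℂ, IsLift τ →
  ∀ (X : Type) [Group X] [Finite X] (Y : Subgroup X), Y.Normal → ∀ f : X → F, SBlk Y f →
  ∀ x y, x * y * x⁻¹ * y⁻¹ ∈ XF f Y → ∀ j ∈ XF f Y,
    (DZero τ ℓ Y f x y → DZero τ ℓ Y f (x * j) y) ∧ (DZero τ ℓ Y f x y → DZero τ ℓ Y f x (y * j))

/-- UNI: the vanishing does not depend on the unit. -/
def UniStmt : Prop := ∀ (ℓ : ℕ) (F : Type) [Field F], GoodF ℓ F → ∀ τ : F → ℂ, IsLift τ →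
  ∀ (X : Type) [Group X] [Finite X] (Y : Subgroup X), Y.Normal → ∀ f : X → F, SBlk Y f →
  ∀ x y u u', IsUnitOver f Y (x * y * x⁻¹ * y⁻¹) u u' → DJ τ ℓ Y f x y u = 0 →
    DZero τ ℓ Y f x y

/-- FRA (7.2): two elements which commute modulo `J` can be moved modulo `J` into a subgroup `L`
which is nilpotent modulo `Y`. -/
def FraStmt : Prop := ∀ (X : Type) [Group X] [Finite X] (Y J : Subgroup X), Y.Normal → J.Normal →
  Y ≤ J → ∀ x y : X, x * y * x⁻¹ * y⁻¹ ∈ J →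
  ∃ L : Subgroup X, Y ≤ L ∧ (∃ j ∈ J, x * j ∈ L) ∧ (∃ j ∈ J, y * j ∈ L) ∧ NilMod L Y

/-- RST (7.3): restriction to a subgroup containing `Y`. -/
def RstStmt : Prop := ∀ (ℓ : ℕ) (F : Type) [Field F], GoodF ℓ F → ∀ τ : F → ℂ,
  ∀ (X : Type) [Group X] [Finite X] (Y : Subgroup X), Y.Normal → ∀ f : X → F, SBlk Y f →
  ∀ L : Subgroup X, Y ≤ L → SBlk (Y.subgroupOf L) (fun t : L => f t) ∧
    (∀ g : L, g ∈ XF (fun t : L => f t) (Y.subgroupOf L) ↔ (g : X) ∈ XF f Y) ∧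
    ∀ x y : L, DZero τ ℓ (Y.subgroupOf L) (fun t : L => f t) x y → DZero τ ℓ Y f x y

/-- DB1 (7.4, 7.5): the double and the idempotent `E₀`. -/
def Db1Stmt : Prop := ∀ (ℓ : ℕ) (F : Type) [Field F], GoodF ℓ F → ∀ τ : F → ℂ, IsLift τ →
  ∀ (X : Type) [Group X] [Finite X] (Y : Subgroup X) [Y.Normal], ∀ f : X → F, SBlk Y f →
  NilMod (XF f Y) Y →
  SBlk (YY2 Y) (sig Y f f) ∧
  (∀ v v' (p : Lam Y), IsUnitOver f Y p.1.1 v v' →
    IsUnitOver (sig Y f f) (YY2 Y) p (sig Y v v') (sig Y v' v)) ∧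
  ∃ E : Lam Y → F, IsIdem E ∧ mulF E (sig Y f f) = E ∧ (∀ p, p ∉ fstP Y (XF f Y) → E p = 0) ∧
    ∀ p q : Lam Y, ∀ v v', IsUnitOver f Y (p.1.1 * q.1.1 * p.1.1⁻¹ * q.1.1⁻¹) v v' →
      BB τ (sig Y f f) (YY2 Y) (fstP Y (XF f Y)) E p q (sig Y v v') = 1

/-- SSP (7.7): the sums `S_S` of the double are products. -/
def SspStmt : Prop := ∀ (ℓ : ℕ) (F : Type) [Field F], GoodF ℓ F → ∀ τ : F → ℂ, IsLift τ →
  ∀ (X : Type) [Group X] [Finite X] (Y : Subgroup X) [Y.Normal], ∀ f : X → F, SBlk Y f →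
  ∀ R S R' S' : Subgroup X, Loc ℓ Y R S → Loc ℓ Y R' S' →
  ∀ p q : Lam Y, p.1.1 ∈ S → q.1.1 ∈ S → p.1.2 ∈ S' → q.1.2 ∈ S' →
  ∀ v v', IsUnitOver f Y (p.1.1 * q.1.1 * p.1.1⁻¹ * q.1.1⁻¹) v v' →
    SS τ (YY2 Y) ((S.prod S').subgroupOf (Lam Y)) ((R.prod R').subgroupOf (Lam Y)) (sig Y f f) p q
        (sig Y v v') =
      SS τ Y S R f p.1.1 q.1.1 v * (starRingEnd ℂ) (SS τ Y S' R' f p.1.2 q.1.2 v)

/-- DBN (J-III): the pair sums of `Y` vanish if the relative alternating sums vanish for all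
normal subgroups `Q₁ ≅ Y` of finite groups `H₁` (isomorphic to subgroups of `X × X`) such that
`|Q₁ : Q₁ ∩ Z(H₁)|` is not larger than for `Y` and `H₁ / (Q₁ C(Q₁))` is nilpotent
(`NilOut Q₁`). -/
def DblnStmt : Prop := ∀ (ℓ : ℕ) [Fact ℓ.Prime] (F : Type) [Field F], GoodF ℓ F →
  ∀ τ : F → ℂ, IsLift τ → ∀ (X : Type) [Group X] [Finite X] (Y : Subgroup X), Y.Normal →
  ∀ f : X → F, SBlk Y f → ¬ DZ ℓ (fun t : Y => f t) →
  (∀ (H₁ : Type) [Group H₁] [Finite H₁] (Q₁ : Subgroup H₁), Q₁.Normal → Nonempty (Q₁ ≃* Y) →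
    mu Q₁ ≤ mu Y → (∃ n : ℕ, Subgroup.lowerCentralSeries (⊤ : Subgroup H₁) n ≤
      Q₁ ⊔ Subgroup.centralizer (Q₁ : Set H₁)) →
    (∃ i : H₁ →* X × X, Function.Injective i) → YH ℓ F Q₁) →
  DAll τ ℓ Y f

/-- DBL: the same with the induction hypothesis of the master induction. -/
def DblStmt : Prop := ∀ (ℓ : ℕ) [Fact ℓ.Prime] (F : Type) [Field F], GoodF ℓ F →
  ∀ τ : F → ℂ, IsLift τ → ∀ (X : Type) [Group X] [Finite X] (Y : Subgroup X), Y.Normal →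
  ∀ f : X → F, SBlk Y f → ¬ DZ ℓ (fun t : Y => f t) → ∀ m : ℕ, mu Y < m → Ylt ℓ F m →
  GoodP ℓ F Y → DAll τ ℓ Y f

end Pool.Agent.PP
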